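import Pool.Agent.T9h73.HS.Main

/-!
# The hot-spot set under delta vertex conditions is finite or uncountable

For every compact metric graph and every choice of real strengths of the delta conditions, the
hot-spot set is on each edge a finite union of points and intervals. So it is finite or uncountable.
-/

set_option autoImplicit false

namespace Pool.Agent.Results.MP_1debac_an.FiniteOrUncountable

open Pool.Agent.R228.QG

/-- Let `Γ` be a compact metric graph with `δ`-conditions of any real strengths `α`. Then the
hot-spot set of `Γ` is finite or uncountable. Moreover every edge `e` can be cut at finitely many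
points (the set `F`) so that each piece without a cut point lies in the hot-spot set or is disjoint
from it. -/
theorem result {V E : Type} [Fintype V] [Fintype E] [DecidableEq V] (Γ : MGraph V E) (α : V → ℝ) :
    ((hotSet Γ α).Finite ∨ ¬ (hotSet Γ α).Countable) ∧
    ∀ e : E, ∃ F : Set ℝ, F.Finite ∧ ∀ (x y : ℝ) (hx : 0 < x ∧ x < Γ.len e)
      (hy : 0 < y ∧ y < Γ.len e), x ≤ y → (∀ z ∈ F, z < x ∨ y < z) →
      ((Sum.inr ⟨(e, x), hx⟩ : Γ.Point) ∈ hotSet Γ α ↔
        (Sum.inr ⟨(e, y), hy⟩ : Γ.Point) ∈ hotSet Γ α) :=
  ⟨Pool.Agent.T9h73.HS.finite_or_uncountable Γ α, Pool.Agent.T9h73.HS.edge_structure Γ α⟩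

end Pool.Agent.Results.MP_1debac_an.FiniteOrUncountable
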